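import Mathlib
import Pool.Agent.Helper64.FreeDefs
import Pool.Agent.Helper81.VCD.Main

set_option autoImplicit false

namespace Pool.Agent.Results.MP_bca398_lc.BoundedVC

open Pool.Agent.Helper64.Free Pool.Agent.Helper81.VCD

/-- **Duality of hypergraphs of bounded VC-dimension.**
Let `F`, `G` be finite families of finite sets with VC-dimensions at most `d` and at most `D`
(`d, D ≥ 1`), and let `s = 4096 * (d * D) * (⌊log₂ (d * D)⌋ + 1) ^ 2`.
(1) If `F` and `G` are mutually dual, then one of them has a member with fewer than `s` elements.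
(2) If `F` and `G` are antichains (not necessarily dual) then, for `n = ⌊log₂ (|F| * |G|)⌋` and
`t = ⌊√⌊n / s⌋⌋ + 1`, the recursive procedure `Alg s t` has a run on `(F, G)`, and every run of it, whatever
the choices of the branching vertices, decides correctly whether `F` and `G` are mutually dual and
makes at most `(|F| * |G|) ^ (s * (t + 1)) + 1` calls. -/
theorem result (d D s : ℕ) (hd : 1 ≤ d) (hD : 1 ≤ D)
    (hs : s = 4096 * (d * D) * (Nat.log 2 (d * D) + 1) ^ 2) (V : Type) [DecidableEq V]
    (F G : Finset (Finset V)) (hF : F.vcDim ≤ d) (hG : G.vcDim ≤ D) :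
    (IsDualPair F G → ∃ E ∈ F ∪ G, E.card < s) ∧
    ∀ n t : ℕ, n = Nat.log 2 (F.card * G.card) → t = Nat.sqrt (n / s) + 1 →
      IsAntichain (· ⊆ ·) (F : Set (Finset V)) → IsAntichain (· ⊆ ·) (G : Set (Finset V)) →
      (∃ b k, Alg s t F G b k) ∧
      ∀ b k, Alg s t F G b k →
        (b = true ↔ IsDualPair F G) ∧ k ≤ (F.card * G.card) ^ (s * (t + 1)) + 1 :=
  main d D s hd hD hs V F G hF hG

end Pool.Agent.Results.MP_bca398_lc.BoundedVC
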