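import Mathlib
import Pool.Agent.Helper64.HypDefs
import Pool.Agent.Helper64.SchemeDef
import Pool.Agent.Helper64.SeqImpliedProof

set_option autoImplicit false

namespace Pool.Agent.Results.MP_bca398_lc.SeqImplied

open Pool.Agent.Helper64

/-- **Quasi-polynomial lower bound for sequential dualization with redundant clauses.**
For all `p, r ≥ 1` there is a hypergraph `H` on `2 * p * r` vertices with `2 ^ p` edges and at most
`p * r ^ 2` minimal transversals such that every sequential scheme of length `t` for `H`, all of
whose intermediate families have at most `M` minimal transversals, satisfies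
`2 ^ p * r ^ ⌈p / 2⌉ ≤ (p + 1) * t * M`. -/
theorem result (p r : ℕ) (hp : 1 ≤ p) (hr : 1 ≤ r) :
    ∃ H : Finset (Finset (Fin p × Bool × Fin r)),
      H.card = 2 ^ p ∧ (Tr H).card ≤ p * r ^ 2 ∧
      ∀ (t M : ℕ) (S : ℕ → Finset (Finset (Fin p × Bool × Fin r))),
        IsScheme H t S → (∀ i < t, (Tr (S i)).card ≤ M) →
          2 ^ p * r ^ ((p + 1) / 2) ≤ (p + 1) * (t * M) :=
  Pool.Agent.Helper64.SeqImplied.final p r hp hr

end Pool.Agent.Results.MP_bca398_lc.SeqImplied
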